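import Mathlib

/-!
# A blow-up of a subdivided fan used for the Explorer-Director ratio
-/

namespace Q47ED

open Finset

/-! ## Paths with a prescribed vertex set -/

section PO

variable {V : Type} [DecidableEq V]

/-- `PO G A u x`: there is a path of `G` from `u` to `x` whose vertex set is exactly `A`. -/
inductive PO (G : SimpleGraph V) : Finset V → V → V → Prop
  | single (u : V) : PO G {u} u u
  | cons {u v x : V} {A : Finset V} : G.Adj u v → u ∉ A → PO G A v x → PO G (insert u A) u x

theorem PO.exists_walk {G : SimpleGraph V} {A : Finset V} {u x : V} (h : PO G A u x) :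
    ∃ w : G.Walk u x, w.IsPath ∧ w.support.toFinset = A := by
  induction h with
  | single u => exact ⟨SimpleGraph.Walk.nil, by simp, by simp⟩
  | @cons u v x A hadj hnot _ ih =>
    obtain ⟨w, hw, hs⟩ := ih
    refine ⟨SimpleGraph.Walk.cons hadj w, ?_, ?_⟩
    · rw [SimpleGraph.Walk.cons_isPath_iff]
      refine ⟨hw, ?_⟩
      intro hmem
      apply hnot
      rw [← hs]
      simpa using hmem
    · rw [SimpleGraph.Walk.support_cons, List.toFinset_cons, hs]

theorem PO.exists_path {G : SimpleGraph V} {A : Finset V} {u x : V} (h : PO G A u x) :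
    ∃ w : G.Walk u x, w.IsPath ∧ w.length + 1 = A.card := by
  obtain ⟨w, hw, hs⟩ := h.exists_walk
  refine ⟨w, hw, ?_⟩
  rw [← hs, List.toFinset_card_of_nodup hw.support_nodup, SimpleGraph.Walk.length_support]

theorem PO.append {G : SimpleGraph V} {A B : Finset V} {u x y v : V} (h1 : PO G A u x)
    (h2 : PO G B y v) (hxy : G.Adj x y) (hd : Disjoint A B) : PO G (A ∪ B) u v := by
  induction h1 with
  | single u =>
    rw [Finset.singleton_union]
    refine PO.cons hxy ?_ h2
    exact Finset.disjoint_singleton_left.mp hd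
  | @cons u w x A hadj hnot _ ih =>
    rw [Finset.insert_union]
    rw [Finset.disjoint_insert_left] at hd
    refine PO.cons hadj ?_ (ih hxy hd.2)
    rw [Finset.mem_union]
    rintro (h | h)
    · exact hnot h
    · exact hd.1 h

theorem PO.clique {G : SimpleGraph V} : ∀ (m : ℕ) (A : Finset V), A.card = m →
    (∀ a ∈ A, ∀ b ∈ A, a ≠ b → G.Adj a b) → ∀ u ∈ A, ∀ v ∈ A, u ≠ v → PO G A u v := by
  intro m
  induction m with
  | zero =>
    intro A hA _ u hu
    rw [Finset.card_eq_zero] at hA
    rw [hA] at hu
    simp at hu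
  | succ m ih =>
    intro A hA hcl u hu v hv huv
    have hB : (A.erase u).card = m := by
      rw [Finset.card_erase_of_mem hu, hA]; rfl
    have hvB : v ∈ A.erase u := Finset.mem_erase.mpr ⟨huv.symm, hv⟩
    by_cases hc : ∃ c ∈ A.erase u, c ≠ v
    · obtain ⟨c, hc, hcv⟩ := hc
      have h1 := ih (A.erase u) hB
        (fun a ha b hb hab => hcl a (Finset.mem_of_mem_erase ha) b (Finset.mem_of_mem_erase hb) hab)
        c hc v hvB hcv
      have h2 : PO G (insert u (A.erase u)) u v :=
        PO.cons (hcl u hu c (Finset.mem_of_mem_erase hc) (Finset.mem_erase.mp hc).1.symm)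
          (Finset.notMem_erase u A) h1
      rwa [Finset.insert_erase hu] at h2
    · push Not at hc
      have hE : A.erase u = {v} := by
        apply Finset.eq_singleton_iff_unique_mem.mpr
        exact ⟨hvB, hc⟩
      have h2 : PO G (insert u {v}) u v :=
        PO.cons (hcl u hu v hv huv) (by simpa using huv) (PO.single v)
      rw [← hE, Finset.insert_erase hu] at h2
      exact h2

end PO

/-! ## The graph -/

/-- The blocks: the hub, the connectors `z j`, the switches `T j` and the pendants `P j`. -/
inductive Blk (n : ℕ) : Type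
  | hub : Blk n
  | z (j : Fin (n + 3)) : Blk n
  | T (j : Fin (n + 2)) : Blk n
  | P (j : Fin (n + 1)) : Blk n
  deriving DecidableEq, Fintype

/-- The number of vertices in a block. -/
def size {n : ℕ} : Blk n → ℕ
  | .hub => 1
  | .z _ => 1
  | .T j => 2 * (n + 3) - j.val
  | .P _ => 2 * (n + 3) + 1

theorem size_T {n : ℕ} (j : Fin (n + 2)) : size (.T j : Blk n) = 2 * (n + 3) - j.val := rfl

theorem size_P {n : ℕ} (j : Fin (n + 1)) : size (.P j : Blk n) = 2 * (n + 3) + 1 := rfl

/-- Oriented adjacency of blocks. -/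
def badj {n : ℕ} : Blk n → Blk n → Prop
  | .hub, .z _ => True
  | .z a, .T j => a.val = j.val ∨ a.val = j.val + 1
  | .z a, .P j => a.val = j.val + 1
  | _, _ => False

abbrev Vtx (n : ℕ) : Type := Σ x : Blk n, Fin (size x)

/-- The graph: each block is a clique, adjacent blocks are completely joined. -/
def gr (n : ℕ) : SimpleGraph (Vtx n) where
  Adj u v := u ≠ v ∧ (u.1 = v.1 ∨ badj u.1 v.1 ∨ badj v.1 u.1)
  symm := ⟨by
    rintro u v ⟨h1, h2⟩
    refine ⟨h1.symm, ?_⟩
    rcases h2 with h | h | h
    · exact Or.inl h.symm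
    · exact Or.inr (Or.inr h)
    · exact Or.inr (Or.inl h)⟩
  loopless := ⟨fun u h => h.1 rfl⟩

variable {n : ℕ}

def hubv (n : ℕ) : Vtx n := ⟨.hub, ⟨0, by simp [size]⟩⟩

def zv (j : Fin (n + 3)) : Vtx n := ⟨.z j, ⟨0, by simp [size]⟩⟩

theorem eq_hubv {u : Vtx n} (h : u.1 = .hub) : u = hubv n := by
  obtain ⟨b, a⟩ := u
  simp only at h
  subst h
  have : a = ⟨0, by simp [size]⟩ := by
    apply Fin.ext
    have := a.isLt
    simp only [size] at this
    simp only
    omega
  rw [this]; rfl

theorem eq_zv {u : Vtx n} {j : Fin (n + 3)} (h : u.1 = .z j) : u = zv j := by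
  obtain ⟨b, a⟩ := u
  simp only at h
  subst h
  have : a = ⟨0, by simp [size]⟩ := by
    apply Fin.ext
    have := a.isLt
    simp only [size] at this
    simp only
    omega
  rw [this]; rfl

theorem adj_of_badj {u v : Vtx n} (h : badj u.1 v.1) : (gr n).Adj u v := by
  refine ⟨?_, Or.inr (Or.inl h)⟩
  rintro rfl
  rcases hu : u.1 with _ | j | j | j <;> rw [hu] at h <;> simp [badj] at h

theorem adj_of_badj' {u v : Vtx n} (h : badj v.1 u.1) : (gr n).Adj u v :=
  (adj_of_badj h).symm

theorem adj_of_eq {u v : Vtx n} (h : u.1 = v.1) (hne : u ≠ v) : (gr n).Adj u v :=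
  ⟨hne, Or.inl h⟩

/-- The neighbours of a pendant block. -/
theorem adj_P {u v : Vtx n} {j : Fin (n + 1)} (h : (gr n).Adj u v) (hu : u.1 = .P j)
    (hv : v.1 ≠ .P j) : v = zv ⟨j.val + 1, by omega⟩ := by
  apply eq_zv
  obtain ⟨_, h | h | h⟩ := h
  · rw [hu] at h; exact absurd h.symm hv
  · rw [hu] at h
    simp [badj] at h
  · rw [hu] at h
    rcases hb : v.1 with _ | a | a | a <;> rw [hb] at h <;> simp [badj] at h
    congr 1
    exact Fin.ext h

/-- The neighbours of a switch block. -/
theorem adj_T {u v : Vtx n} {j : Fin (n + 2)} (h : (gr n).Adj u v) (hu : u.1 = .T j)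
    (hv : v.1 ≠ .T j) : v = zv ⟨j.val, by omega⟩ ∨ v = zv ⟨j.val + 1, by omega⟩ := by
  obtain ⟨_, h | h | h⟩ := h
  · rw [hu] at h; exact absurd h.symm hv
  · rw [hu] at h
    simp [badj] at h
  · rw [hu] at h
    rcases hb : v.1 with _ | a | a | a <;> rw [hb] at h <;> simp [badj] at h
    rcases h with h | h
    · left
      apply eq_zv
      rw [hb]
      congr 1
      exact Fin.ext h
    · right
      apply eq_zv
      rw [hb]
      congr 1
      exact Fin.ext h

/-! ## Vertex sets that are unions of blocks -/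

/-- The vertices in a set of blocks. -/
def bl (X : Finset (Blk n)) : Finset (Vtx n) := X.sigma (fun _ => Finset.univ)

theorem mem_bl {X : Finset (Blk n)} {v : Vtx n} : v ∈ bl X ↔ v.1 ∈ X := by
  simp [bl]

theorem card_bl (X : Finset (Blk n)) : (bl X).card = ∑ x ∈ X, size x := by
  simp [bl, Finset.card_sigma]

theorem bl_disjoint {X Y : Finset (Blk n)} (h : Disjoint X Y) : Disjoint (bl X) (bl Y) := by
  rw [Finset.disjoint_left] at h ⊢
  intro v hv hv'
  rw [mem_bl] at hv hv'
  exact h hv hv'

theorem bl_union (X Y : Finset (Blk n)) : bl X ∪ bl Y = bl (X ∪ Y) := by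
  ext v
  simp only [Finset.mem_union, mem_bl]

theorem PO_block (x : Blk n) (u v : Vtx n) (hu : u.1 = x) (hv : v.1 = x) (huv : u ≠ v) :
    PO (gr n) (bl {x}) u v := by
  refine PO.clique _ _ rfl ?_ u (by simp [mem_bl, hu]) v (by simp [mem_bl, hv]) huv
  intro a ha b hb hab
  rw [mem_bl, Finset.mem_singleton] at ha hb
  exact adj_of_eq (ha.trans hb.symm) hab

theorem PO_z (j : Fin (n + 3)) : PO (gr n) (bl {.z j}) (zv j) (zv j) := by
  have : bl {Blk.z j} = {zv j} := by
    ext v
    rw [mem_bl, Finset.mem_singleton, Finset.mem_singleton]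
    constructor
    · intro h; exact eq_zv h
    · rintro rfl; rfl
  rw [this]
  exact PO.single _

theorem PO_hub : PO (gr n) (bl {.hub}) (hubv n) (hubv n) := by
  have : bl {(Blk.hub : Blk n)} = {hubv n} := by
    ext v
    rw [mem_bl, Finset.mem_singleton, Finset.mem_singleton]
    constructor
    · intro h; exact eq_hubv h
    · rintro rfl; rfl
  rw [this]
  exact PO.single _

theorem exists_two (x : Blk n) (hx : 2 ≤ size x) : ∃ u v : Vtx n, u.1 = x ∧ v.1 = x ∧ u ≠ v := by
  refine ⟨⟨x, ⟨0, by omega⟩⟩, ⟨x, ⟨1, by omega⟩⟩, rfl, rfl, ?_⟩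
  intro h
  have := eq_of_heq (Sigma.mk.inj h).2
  simp at this

theorem exists_other (x : Blk n) (hx : 2 ≤ size x) (u : Vtx n) (_hu : u.1 = x) :
    ∃ v : Vtx n, v.1 = x ∧ u ≠ v := by
  obtain ⟨a, b, ha, hb, hab⟩ := exists_two x hx
  by_cases h : u = a
  · exact ⟨b, hb, by rw [h]; exact hab⟩
  · exact ⟨a, ha, h⟩

theorem two_le_T (j : Fin (n + 2)) : 2 ≤ size (.T j : Blk n) := by
  have := j.isLt
  simp only [size]; omega

theorem two_le_P (j : Fin (n + 1)) : 2 ≤ size (.P j : Blk n) := by
  simp only [size]; omega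

/-- The blocks `z_k` (`j ≤ k ≤ j+m`) and `T_k` (`j ≤ k < j+m`). -/
def segP (j m : ℕ) : Blk n → Prop
  | .z k => j ≤ k.val ∧ k.val ≤ j + m
  | .T k => j ≤ k.val ∧ k.val < j + m
  | _ => False

open Classical in
noncomputable def seg (n j m : ℕ) : Finset (Blk n) := Finset.univ.filter (fun x => segP j m x)

theorem mem_seg {j m : ℕ} {x : Blk n} : x ∈ seg n j m ↔ segP j m x := by
  simp [seg]

theorem PO_seg (j : ℕ) : ∀ (m : ℕ) (h : j + m < n + 3),
    PO (gr n) (bl (seg n j m)) (zv ⟨j + m, h⟩) (zv ⟨j, by omega⟩) := by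
  intro m
  induction m with
  | zero =>
    intro h
    have : seg n j 0 = {.z ⟨j, by omega⟩} := by
      ext x
      rw [mem_seg, Finset.mem_singleton]
      rcases x with _ | k | k | k
      · simp [segP]
      · simp only [segP, Blk.z.injEq]
        constructor
        · intro h; apply Fin.ext; simp only; omega
        · intro h; rw [h]; simp
      · simp only [segP, reduceCtorEq, iff_false]; omega
      · simp [segP]
    rw [this]
    exact PO_z _
  | succ m ih =>
    intro h
    have ih' := ih (by omega)
    have hsplit : seg n j (m + 1) = {.z ⟨j + (m + 1), h⟩} ∪ ({.T ⟨j + m, by omega⟩} ∪ seg n j m) := by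
      ext x
      rw [Finset.mem_union, Finset.mem_union, mem_seg, mem_seg, Finset.mem_singleton,
        Finset.mem_singleton]
      rcases x with _ | k | k | k
      · simp [segP]
      · simp only [segP, Blk.z.injEq, reduceCtorEq, false_or, Fin.ext_iff]
        omega
      · simp only [segP, Blk.T.injEq, reduceCtorEq, false_or, Fin.ext_iff]
        omega
      · simp [segP]
    rw [hsplit, ← bl_union, ← bl_union]
    obtain ⟨a, b, ha, hb, hab⟩ := exists_two (.T ⟨j + m, by omega⟩ : Blk n) (two_le_T _)
    have hT := PO_block _ a b ha hb hab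
    have h1 := hT.append ih' (adj_of_badj' (by rw [hb]; simp [zv, badj])) (by
      apply bl_disjoint
      rw [Finset.disjoint_singleton_left, mem_seg]
      simp [segP])
    refine (PO_z ⟨j + (m + 1), h⟩).append h1 (adj_of_badj (by rw [ha]; simp [zv, badj]; omega)) ?_
    rw [bl_union]
    apply bl_disjoint
    rw [Finset.disjoint_singleton_left, Finset.mem_union, Finset.mem_singleton, mem_seg]
    simp [segP]

/-- The blocks missed by the canonical path from `P_i` to `P_{i+1}`. -/
def missP (i : ℕ) : Blk n → Prop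
  | .P k => k.val ≠ i ∧ k.val ≠ i + 1
  | .T k => k.val = i + 1
  | _ => False

open Classical in
noncomputable def miss (n i : ℕ) : Finset (Blk n) := Finset.univ.filter (fun x => missP i x)

theorem mem_miss {i : ℕ} {x : Blk n} : x ∈ miss n i ↔ missP i x := by
  simp [miss]

/-- Existence of the canonical path. -/
theorem PO_canonical (i : ℕ) (hi : i < n) (u : Vtx n) (hu : u.1 = .P ⟨i, by omega⟩) :
    ∃ x : Vtx n, PO (gr n) (bl (miss n i)ᶜ) u x := by
  obtain ⟨u', hu', huu'⟩ := exists_other _ (two_le_P _) u hu
  obtain ⟨a, b, ha, hb, hab⟩ := exists_two (.P ⟨i + 1, by omega⟩ : Blk n) (two_le_P _)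
  refine ⟨b, ?_⟩
  have h5 := PO_block _ a b ha hb hab
  have h4 := (PO_seg (n := n) (i + 2) (n - i) (by omega)).append h5
    (adj_of_badj (by rw [ha]; simp [zv, badj])) (by
      apply bl_disjoint
      rw [Finset.disjoint_singleton_right, mem_seg]
      simp [segP])
  have h3 := (PO_hub (n := n)).append h4 (adj_of_badj (by simp [hubv, zv, badj])) (by
      rw [bl_union]
      apply bl_disjoint
      rw [Finset.disjoint_singleton_left, Finset.mem_union, Finset.mem_singleton, mem_seg]
      simp [segP])
  have h2 := (PO_seg (n := n) 0 (i + 1) (by omega)).append h3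
    (adj_of_badj' (by simp [hubv, zv, badj])) (by
      rw [bl_union, bl_union]
      apply bl_disjoint
      rw [Finset.disjoint_left]
      intro x hx hx'
      rw [mem_seg] at hx
      rw [Finset.mem_union, Finset.mem_union, Finset.mem_singleton, Finset.mem_singleton,
        mem_seg] at hx'
      rcases x with _ | k | k | k
      · simp [segP] at hx
      · simp only [segP, reduceCtorEq, or_false, false_or] at hx hx'
        omega
      · simp only [segP, reduceCtorEq, or_false, false_or] at hx hx'
        omega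
      · simp [segP] at hx)
  have h1 := (PO_block _ u u' hu hu' huu').append h2
    (adj_of_badj' (by rw [hu']; simp [zv, badj])) (by
      rw [bl_union, bl_union, bl_union]
      apply bl_disjoint
      rw [Finset.disjoint_singleton_left, Finset.mem_union, Finset.mem_union, Finset.mem_union,
        Finset.mem_singleton, Finset.mem_singleton, mem_seg, mem_seg]
      simp [segP])
  have hset : bl {(Blk.P ⟨i, by omega⟩ : Blk n)} ∪ (bl (seg n 0 (i + 1)) ∪ (bl {(Blk.hub : Blk n)} ∪
      (bl (seg n (i + 2) (n - i)) ∪ bl {(Blk.P ⟨i + 1, by omega⟩ : Blk n)}))) =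
      bl (miss n i)ᶜ := by
    rw [bl_union, bl_union, bl_union, bl_union]
    congr 1
    ext x
    rw [Finset.mem_union, Finset.mem_union, Finset.mem_union, Finset.mem_union,
      Finset.mem_compl, mem_seg, mem_seg, mem_miss, Finset.mem_singleton, Finset.mem_singleton,
      Finset.mem_singleton]
    rcases x with _ | k | k | k
    · simp [segP, missP]
    · have := k.isLt
      simp only [segP, missP, reduceCtorEq, or_false, false_or, not_false_eq_true, iff_true]
      omega
    · have := k.isLt
      simp only [segP, missP, reduceCtorEq, or_false, false_or]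
      omega
    · have := k.isLt
      simp only [segP, missP, reduceCtorEq, false_or, Blk.P.injEq, Fin.ext_iff]
      omega
  rw [hset] at h1
  exact h1

/-! ## Path functions -/

/-- A path given as a function on `0..L`. -/
structure PF (n : ℕ) (f : ℕ → Vtx n) (L : ℕ) : Prop where
  inj : ∀ i ≤ L, ∀ j ≤ L, f i = f j → i = j
  adj : ∀ i < L, (gr n).Adj (f i) (f (i + 1))

theorem PF.rev {f : ℕ → Vtx n} {L : ℕ} (h : PF n f L) : PF n (fun i => f (L - i)) L := by
  constructor
  · intro i hi j hj hij
    have := h.inj (L - i) (by omega) (L - j) (by omega) hij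
    omega
  · intro i hi
    have := h.adj (L - (i + 1)) (by omega)
    have e : L - (i + 1) + 1 = L - i := by omega
    rw [e] at this
    exact this.symm

theorem crossing (Q : ℕ → Prop) (a b : ℕ) (hab : a ≤ b) (ha : ¬ Q a) (hb : Q b) :
    ∃ c, a ≤ c ∧ c < b ∧ ¬ Q c ∧ Q (c + 1) := by
  induction b, hab using Nat.le_induction with
  | base => exact absurd hb ha
  | succ b hab ih =>
    by_cases hq : Q b
    · obtain ⟨c, h1, h2, h3, h4⟩ := ih hq
      exact ⟨c, h1, by omega, h3, h4⟩
    · exact ⟨b, hab, by omega, hq, hb⟩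

/-- A pendant block containing neither end of a path is missed by the path. -/
theorem PF.miss_P {f : ℕ → Vtx n} {L : ℕ} (h : PF n f L) (j : Fin (n + 1))
    (h0 : (f 0).1 ≠ .P j) (hL : (f L).1 ≠ .P j) : ∀ m ≤ L, (f m).1 ≠ .P j := by
  intro m hm hmP
  obtain ⟨c, _, hc2, hc3, hc4⟩ := crossing (fun m => (f m).1 = .P j) 0 m (by omega) h0 hmP
  obtain ⟨d, hd1, hd2, hd3, hd4⟩ := crossing (fun m => (f m).1 ≠ .P j) m L hm (by simpa using hmP) hL
  simp only [ne_eq, not_not] at hd3
  have e1 := adj_P (h.adj c (by omega)).symm hc4 hc3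
  have e2 := adj_P (h.adj d (by omega)) hd3 hd4
  have := h.inj c (by omega) (d + 1) (by omega) (e1.trans e2.symm)
  omega

/-- If a path starts in `P_i` and ends outside, it misses `T_i` or `T_{i+1}`, provided it does not
end in these. -/
theorem PF.miss_T {f : ℕ → Vtx n} {L : ℕ} (h : PF n f L) (i : Fin (n + 1))
    (h0 : (f 0).1 = .P i) (hL : (f L).1 ≠ .P i) (hLT : ∀ k, (f L).1 ≠ .T k) :
    ∃ k : Fin (n + 2), (k.val = i.val ∨ k.val = i.val + 1) ∧ ∀ m ≤ L, (f m).1 ≠ .T k := by
  obtain ⟨m, _, hm2, hm3, hm4⟩ := crossing (fun m => (f m).1 ≠ .P i) 0 L (by omega)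
    (by simpa using h0) hL
  simp only [ne_eq, not_not] at hm3
  have ez := adj_P (h.adj m hm2) hm3 hm4
  -- if `T_k` is visited, then the next vertex is in `T_k`
  have key : ∀ k : Fin (n + 2), (k.val = i.val ∨ k.val = i.val + 1) →
      (∃ p ≤ L, (f p).1 = .T k) → (f (m + 2)).1 = .T k := by
    intro k hk ⟨p, hp, hpT⟩
    have h0T : (f 0).1 ≠ .T k := by rw [h0]; simp
    obtain ⟨c, _, hc2, hc3, hc4⟩ := crossing (fun m => (f m).1 = .T k) 0 p (by omega) h0T hpT
    obtain ⟨d, hd1, hd2, hd3, hd4⟩ := crossing (fun m => (f m).1 ≠ .T k) p L hp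
      (by simpa using hpT) (hLT k)
    simp only [ne_eq, not_not] at hd3
    have e1 := adj_T (h.adj c (by omega)).symm hc4 hc3
    have e2 := adj_T (h.adj d (by omega)) hd3 hd4
    have hcd : f c ≠ f (d + 1) := by
      intro h'
      have := h.inj c (by omega) (d + 1) (by omega) h'
      omega
    -- the vertex `z_{i+1}` is one of the two
    have hz : f c = zv ⟨i.val + 1, by omega⟩ ∨ f (d + 1) = zv ⟨i.val + 1, by omega⟩ := by
      rcases e1 with e1 | e1 <;> rcases e2 with e2 | e2
      · exact absurd (e1.trans e2.symm) hcd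
      · rcases hk with hk | hk
        · right; rw [e2]; congr 1; apply Fin.ext; simp only; omega
        · left; rw [e1]; congr 1; apply Fin.ext; simp only; omega
      · rcases hk with hk | hk
        · left; rw [e1]; congr 1; apply Fin.ext; simp only; omega
        · right; rw [e2]; congr 1; apply Fin.ext; simp only; omega
      · exact absurd (e1.trans e2.symm) hcd
    rcases hz with hz | hz
    · have : c = m + 1 := h.inj c (by omega) (m + 1) (by omega) (hz.trans ez.symm)
      subst this
      exact hc4
    · have : d + 1 = m + 1 := h.inj (d + 1) (by omega) (m + 1) (by omega) (hz.trans ez.symm)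
      have : d = m := by omega
      subst this
      rw [hm3] at hd3
      simp at hd3
  by_cases hA : ∃ p ≤ L, (f p).1 = .T ⟨i.val, by omega⟩
  · by_cases hB : ∃ p ≤ L, (f p).1 = .T ⟨i.val + 1, by omega⟩
    · have a1 := key _ (Or.inl rfl) hA
      have a2 := key _ (Or.inr rfl) hB
      rw [a1] at a2
      simp [Blk.T.injEq, Fin.ext_iff] at a2
    · push Not at hB
      exact ⟨_, Or.inr rfl, hB⟩
  · push Not at hA
    exact ⟨_, Or.inl rfl, hA⟩

/-! ## Counting -/

open Classical in
/-- The blocks missed by a path function. -/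
noncomputable def missed (f : ℕ → Vtx n) (L : ℕ) : Finset (Blk n) :=
  Finset.univ.filter (fun x => ∀ m ≤ L, (f m).1 ≠ x)

theorem mem_missed {f : ℕ → Vtx n} {L : ℕ} {x : Blk n} :
    x ∈ missed f L ↔ ∀ m ≤ L, (f m).1 ≠ x := by
  simp [missed]

theorem PF.card_missed {f : ℕ → Vtx n} {L : ℕ} (h : PF n f L) (X : Finset (Blk n))
    (hX : L + 1 = (bl Xᶜ).card) : ∑ x ∈ missed f L, size x ≤ ∑ x ∈ X, size x := by
  rw [← card_bl, ← card_bl]
  have h1 : ((Finset.range (L + 1)).image f).card = L + 1 := by
    rw [Finset.card_image_of_injOn, Finset.card_range]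
    intro i hi j hj hij
    simp only [Finset.coe_range, Set.mem_Iio] at hi hj
    exact h.inj i (by omega) j (by omega) hij
  have h2 : Disjoint ((Finset.range (L + 1)).image f) (bl (missed f L)) := by
    rw [Finset.disjoint_left]
    intro v hv hv'
    rw [Finset.mem_image] at hv
    obtain ⟨m, hm, rfl⟩ := hv
    rw [mem_bl, mem_missed] at hv'
    exact hv' m (by rw [Finset.mem_range] at hm; omega) rfl
  have h3 := Finset.card_union_of_disjoint h2
  have h4 : (((Finset.range (L + 1)).image f) ∪ bl (missed f L)).card ≤ Fintype.card (Vtx n) :=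
    Finset.card_le_univ _
  have h5 : (bl X).card + (bl Xᶜ).card = Fintype.card (Vtx n) := by
    have : bl Xᶜ = (bl X)ᶜ := by
      ext v; simp [mem_bl]
    rw [this, Finset.card_add_card_compl]
  omega

theorem sum_miss (i : ℕ) (hi : i < n) :
    ∑ x ∈ miss n i, size x = (n - 1) * (2 * (n + 3) + 1) + (2 * (n + 3) - (i + 1)) := by
  have : miss n i = ((Finset.univ.erase (⟨i, by omega⟩ : Fin (n + 1))).erase
      ⟨i + 1, by omega⟩).image Blk.P ∪ {Blk.T ⟨i + 1, by omega⟩} := by
    ext x
    rw [mem_miss, Finset.mem_union, Finset.mem_singleton, Finset.mem_image]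
    rcases x with _ | k | k | k
    · simp [missP]
    · simp [missP]
    · simp [missP, Fin.ext_iff]
    · simp only [missP, Finset.mem_erase, ne_eq, Finset.mem_univ, and_true, Blk.P.injEq,
        reduceCtorEq, or_false]
      constructor
      · rintro ⟨h1, h2⟩
        exact ⟨k, ⟨fun h => h2 (by rw [h]), fun h => h1 (by rw [h])⟩, rfl⟩
      · rintro ⟨a, ⟨h1, h2⟩, rfl⟩
        exact ⟨fun h => h2 (Fin.ext h), fun h => h1 (Fin.ext h)⟩
  rw [this, Finset.sum_union, Finset.sum_image, Finset.sum_singleton]
  · simp only [size_P, size_T, Finset.sum_const, smul_eq_mul]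
    rw [Finset.card_erase_of_mem, Finset.card_erase_of_mem (Finset.mem_univ _), Finset.card_univ,
      Fintype.card_fin]
    · rfl
    · simp [Fin.ext_iff]
  · intro a _ b _ hab
    exact Blk.P.inj hab
  · rw [Finset.disjoint_singleton_right]
    simp

/-- Every path of the canonical length that starts in `P_i` ends in `P_{i+1}`. -/
theorem PF.end_mem {f : ℕ → Vtx n} {L : ℕ} (h : PF n f L) (i : ℕ) (hi : i < n)
    (h0 : (f 0).1 = .P ⟨i, by omega⟩) (hL : L + 1 = (bl (miss n i)ᶜ).card) :
    (f L).1 = .P ⟨i + 1, by omega⟩ := by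
  have hsum := h.card_missed (miss n i) hL
  rw [sum_miss i hi] at hsum
  -- the end is in some pendant block `P_j` with `j ≠ i`
  by_cases hend : ∃ j : Fin (n + 1), j.val ≠ i ∧ (f L).1 = .P j
  swap
  · exfalso
    push Not at hend
    have hsub : ((Finset.univ.erase (⟨i, by omega⟩ : Fin (n + 1))).image Blk.P) ⊆ missed f L := by
      intro x hx
      rw [Finset.mem_image] at hx
      obtain ⟨j, hj, rfl⟩ := hx
      rw [mem_missed]
      have hji : j.val ≠ i := by
        intro h'
        rw [Finset.mem_erase] at hj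
        exact hj.1 (Fin.ext h')
      apply h.miss_P
      · rw [h0]
        intro h'
        exact hji (by rw [← Blk.P.inj h'])
      · exact hend j hji
    have h1 := Finset.sum_le_sum_of_subset (f := size) hsub
    rw [Finset.sum_image (by intro a _ b _ hab; exact Blk.P.inj hab)] at h1
    simp only [size_P, Finset.sum_const, smul_eq_mul] at h1
    rw [Finset.card_erase_of_mem (Finset.mem_univ _), Finset.card_univ, Fintype.card_fin] at h1
    have h2 : (n + 1 - 1) * (2 * (n + 3) + 1) = (n - 1) * (2 * (n + 3) + 1) + (2 * (n + 3) + 1) := by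
      obtain ⟨m, rfl⟩ : ∃ m, n = m + 1 := ⟨n - 1, by omega⟩
      simp only [Nat.add_sub_cancel]
      ring
    omega
  · obtain ⟨j, hji, hj⟩ := hend
    obtain ⟨k, hk, hkm⟩ := h.miss_T ⟨i, by omega⟩ h0
      (by rw [hj]; intro h'; exact hji (by rw [Blk.P.inj h'])) (by intro k; rw [hj]; simp)
    obtain ⟨k', hk', hkm'⟩ := h.rev.miss_T j (by simpa using hj)
      (by
        simp only [Nat.sub_self]
        rw [h0]; intro h'; exact hji (by rw [← Blk.P.inj h']))
      (by intro k; simp only [Nat.sub_self]; rw [h0]; simp)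
    have hkm'' : ∀ m ≤ L, (f m).1 ≠ .T k' := by
      intro m hm
      have h1 := hkm' (L - m) (by omega)
      have e : L - (L - m) = m := by omega
      rwa [e] at h1
    have hPsub : (((Finset.univ.erase (⟨i, by omega⟩ : Fin (n + 1))).erase j).image Blk.P) ⊆
        missed f L := by
      intro x hx
      rw [Finset.mem_image] at hx
      obtain ⟨p, hp, rfl⟩ := hx
      rw [Finset.mem_erase, Finset.mem_erase] at hp
      rw [mem_missed]
      apply h.miss_P
      · rw [h0]
        intro h'
        exact hp.2.1 (Blk.P.inj h').symm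
      · rw [hj]
        intro h'
        exact hp.1 (Blk.P.inj h').symm
    have hPsum : ∑ x ∈ (((Finset.univ.erase (⟨i, by omega⟩ : Fin (n + 1))).erase j).image Blk.P),
        size x = (n - 1) * (2 * (n + 3) + 1) := by
      rw [Finset.sum_image (by intro a _ b _ hab; exact Blk.P.inj hab)]
      simp only [size_P, Finset.sum_const, smul_eq_mul]
      rw [Finset.card_erase_of_mem, Finset.card_erase_of_mem (Finset.mem_univ _), Finset.card_univ,
        Fintype.card_fin]
      · rfl
      · rw [Finset.mem_erase]
        exact ⟨fun h' => hji (by rw [h']), Finset.mem_univ _⟩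
    -- the two missed switches
    by_cases hkk : k = k'
    · -- same switch
      have hsub : (((Finset.univ.erase (⟨i, by omega⟩ : Fin (n + 1))).erase j).image Blk.P) ∪
          {Blk.T k} ⊆ missed f L := by
        apply Finset.union_subset hPsub
        rw [Finset.singleton_subset_iff, mem_missed]
        exact hkm
      have h1 := Finset.sum_le_sum_of_subset (f := size) hsub
      rw [Finset.sum_union (by rw [Finset.disjoint_singleton_right]; simp), hPsum,
        Finset.sum_singleton] at h1
      simp only [size_T] at h1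
      have hklt := k.isLt
      have : k.val ≥ i + 1 := by omega
      rw [hj]
      congr 1
      apply Fin.ext
      simp only at hk ⊢
      subst hkk
      omega
    · exfalso
      have hsub : (((Finset.univ.erase (⟨i, by omega⟩ : Fin (n + 1))).erase j).image Blk.P) ∪
          {Blk.T k, Blk.T k'} ⊆ missed f L := by
        apply Finset.union_subset hPsub
        intro x hx
        rw [Finset.mem_insert, Finset.mem_singleton] at hx
        rw [mem_missed]
        rcases hx with rfl | rfl
        · exact hkm
        · exact hkm''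
      have h1 := Finset.sum_le_sum_of_subset (f := size) hsub
      rw [Finset.sum_union, hPsum, Finset.sum_pair] at h1
      · simp only [size_T] at h1
        have hklt := k.isLt
        have hklt' := k'.isLt
        omega
      · intro h'
        exact hkk (Blk.T.inj h')
      · rw [Finset.disjoint_right]
        intro x hx
        rw [Finset.mem_insert, Finset.mem_singleton] at hx
        rcases hx with rfl | rfl <;> simp

/-- The same for walks. -/
theorem end_of_path (i : ℕ) (hi : i < n) (u x : Vtx n) (hu : u.1 = .P ⟨i, by omega⟩)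
    (w : (gr n).Walk u x) (hw : w.IsPath) (hL : w.length + 1 = (bl (miss n i)ᶜ).card) :
    x.1 = .P ⟨i + 1, by omega⟩ := by
  have hPF : PF n w.getVert w.length := by
    constructor
    · intro a ha b hb hab
      exact hw.getVert_injOn ha hb hab
    · intro a ha
      exact w.adj_getVert_succ ha
  have := hPF.end_mem i hi (by rw [w.getVert_zero]; exact hu) hL
  rwa [w.getVert_length] at this

end Q47ED
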